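import Mathlib

set_option autoImplicit false

/-!
# Orderings of the omega-primality values of three generators
-/

namespace Pool.Agent.Results.MP_1fb722_al.NoOrderings

open Finset

/-- `x ≼_Γ y`: `y - x ∈ Γ`. -/
def Le (Γ : AddSubmonoid ℕ) (x y : ℕ) : Prop := ∃ g ∈ Γ, y = x + g

/-- The property in the definition of the omega-primality value: whenever `a₁, …, a_r ∈ Γ` satisfy
`x ≼ a₁ + … + a_r`, there is `T ⊆ {1, …, r}` with `|T| ≤ N` and `x ≼ ∑_{i ∈ T} a_i`. -/
def Bd (Γ : AddSubmonoid ℕ) (x N : ℕ) : Prop :=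
  ∀ (r : ℕ) (a : Fin r → ℕ), (∀ i, a i ∈ Γ) → Le Γ x (∑ i, a i) →
    ∃ T : Finset (Fin r), T.card ≤ N ∧ Le Γ x (∑ i ∈ T, a i)

/-- The omega-primality value: the least positive integer `N` with the property above. -/
noncomputable def omega (Γ : AddSubmonoid ℕ) (x : ℕ) : ℕ := sInf {N : ℕ | 1 ≤ N ∧ Bd Γ x N}

/-- The submonoid generated by three numbers. -/
def Gm (n₁ n₂ n₃ : ℕ) : AddSubmonoid ℕ := AddSubmonoid.closure {n₁, n₂, n₃}

theorem mem_Gm {n₁ n₂ n₃ z : ℕ} : z ∈ Gm n₁ n₂ n₃ ↔ ∃ i j k : ℕ, z = i * n₁ + j * n₂ + k * n₃ := by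
  constructor
  · intro h
    induction h using AddSubmonoid.closure_induction with
    | mem x hx =>
      rcases hx with rfl | rfl | hx
      · exact ⟨1, 0, 0, by ring⟩
      · exact ⟨0, 1, 0, by ring⟩
      · rw [Set.mem_singleton_iff] at hx
        exact ⟨0, 0, 1, by rw [hx]; ring⟩
    | zero => exact ⟨0, 0, 0, by ring⟩
    | add x y _ _ hx hy =>
      obtain ⟨i, j, k, rfl⟩ := hx
      obtain ⟨i', j', k', rfl⟩ := hy
      exact ⟨i + i', j + j', k + k', by ring⟩
  · rintro ⟨i, j, k, rfl⟩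
    have h1 : n₁ ∈ Gm n₁ n₂ n₃ := AddSubmonoid.subset_closure (by simp)
    have h2 : n₂ ∈ Gm n₁ n₂ n₃ := AddSubmonoid.subset_closure (by simp)
    have h3 : n₃ ∈ Gm n₁ n₂ n₃ := AddSubmonoid.subset_closure (by simp)
    refine add_mem (add_mem ?_ ?_) ?_
    · simpa using nsmul_mem h1 i
    · simpa using nsmul_mem h2 j
    · simpa using nsmul_mem h3 k

section General

variable (Γ : AddSubmonoid ℕ) (x p q : ℕ)

/-- `(s, t)` is a minimal pair with `x ≼ s p + t q`. -/
def Bul (s t : ℕ) : Prop := Le Γ x (s * p + t * q) ∧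
  (∀ s', s = s' + 1 → ¬ Le Γ x (s' * p + t * q)) ∧ (∀ t', t = t' + 1 → ¬ Le Γ x (s * p + t' * q))

variable {Γ x p q}

theorem Le.add {y g : ℕ} (h : Le Γ x y) (hg : g ∈ Γ) : Le Γ x (y + g) := by
  obtain ⟨g', hg', rfl⟩ := h
  exact ⟨g' + g, add_mem hg' hg, by ring⟩

theorem Le.mono (hp : p ∈ Γ) (hq : q ∈ Γ) {s t s' t' : ℕ} (h : Le Γ x (s * p + t * q)) (hs : s ≤ s')
    (ht : t ≤ t') : Le Γ x (s' * p + t' * q) := by
  obtain ⟨u, rfl⟩ := Nat.exists_eq_add_of_le hs
  obtain ⟨v, rfl⟩ := Nat.exists_eq_add_of_le ht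
  have : (s + u) * p + (t + v) * q = s * p + t * q + (u * p + v * q) := by ring
  rw [this]
  exact h.add (add_mem (by simpa using nsmul_mem hp u) (by simpa using nsmul_mem hq v))

/-- Every pair is above a minimal pair. -/
theorem exists_bul (s t : ℕ) (h : Le Γ x (s * p + t * q)) : ∃ s' t', s' ≤ s ∧ t' ≤ t ∧
    Bul Γ x p q s' t' := by
  induction hn : s + t using Nat.strong_induction_on generalizing s t with
  | _ n ih =>
    by_cases h1 : ∃ s', s = s' + 1 ∧ Le Γ x (s' * p + t * q)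
    · obtain ⟨s', rfl, h2⟩ := h1
      obtain ⟨a, b, ha, hb, hab⟩ := ih (s' + t) (by omega) s' t h2 rfl
      exact ⟨a, b, by omega, hb, hab⟩
    · by_cases h2 : ∃ t', t = t' + 1 ∧ Le Γ x (s * p + t' * q)
      · obtain ⟨t', rfl, h3⟩ := h2
        obtain ⟨a, b, ha, hb, hab⟩ := ih (s + t') (by omega) s t' h3 rfl
        exact ⟨a, b, ha, by omega, hab⟩
      · exact ⟨s, t, le_rfl, le_rfl, h, fun s' hs h3 => h1 ⟨s', hs, h3⟩,
          fun t' ht h3 => h2 ⟨t', ht, h3⟩⟩

theorem bul_unique (hp : p ∈ Γ) (hq : q ∈ Γ) {s t s' t' : ℕ} (h : Bul Γ x p q s t) (hs : s' ≤ s)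
    (ht : t' ≤ t) (h' : Le Γ x (s' * p + t' * q)) : s' = s ∧ t' = t := by
  constructor
  · by_contra hne
    obtain ⟨u, rfl⟩ := Nat.exists_eq_succ_of_ne_zero (show s ≠ 0 by omega)
    exact h.2.1 u rfl (h'.mono hp hq (by omega) ht)
  · by_contra hne
    obtain ⟨u, rfl⟩ := Nat.exists_eq_succ_of_ne_zero (show t ≠ 0 by omega)
    exact h.2.2 u rfl (h'.mono hp hq hs (by omega))

/-- Lower bound. -/
theorem lower (hp : p ∈ Γ) (hq : q ∈ Γ) {s t N : ℕ} (h : Bul Γ x p q s t) (hN : Bd Γ x N) :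
    s + t ≤ N := by
  classical
  obtain ⟨T, hT, h1⟩ := hN (s + t) (fun i => if (i : ℕ) < s then p else q)
    (fun i => by split_ifs <;> assumption) (by
      rw [Fin.sum_univ_add]
      have e1 : ∑ i : Fin s, (if ((Fin.castAdd t i : Fin (s + t)) : ℕ) < s then p else q) = s * p := by
        rw [Finset.sum_congr rfl (g := fun _ => p) (fun i _ => by simp)]
        simp
      have e2 : ∑ i : Fin t, (if ((Fin.natAdd s i : Fin (s + t)) : ℕ) < s then p else q) = t * q := by
        rw [Finset.sum_congr rfl (g := fun _ => q) (fun i _ => by simp)]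
        simp
      rw [e1, e2]
      exact h.1)
  have h2 : ∑ i ∈ T, (if ((i : Fin (s + t)) : ℕ) < s then p else q) =
      (T.filter fun i : Fin (s + t) => (i : ℕ) < s).card * p + (T.filter fun i : Fin (s + t) => ¬ (i : ℕ) < s).card * q := by
    rw [Finset.sum_ite]
    simp
  rw [h2] at h1
  have h3 : (T.filter fun i : Fin (s + t) => (i : ℕ) < s).card ≤ s := by
    have : (T.filter fun i : Fin (s + t) => (i : ℕ) < s).card ≤ (Finset.range s).card := by
      apply Finset.card_le_card_of_injOn (fun i : Fin (s + t) => (i : ℕ))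
      · intro i hi
        simpa using (Finset.mem_filter.1 hi).2
      · intro i _ j _ hij
        exact Fin.ext hij
    simpa using this
  have h4 : (T.filter fun i : Fin (s + t) => ¬ (i : ℕ) < s).card ≤ t := by
    have : (T.filter fun i : Fin (s + t) => ¬ (i : ℕ) < s).card ≤ (Finset.range t).card := by
      apply Finset.card_le_card_of_injOn (fun i : Fin (s + t) => (i : ℕ) - s)
      · intro i hi
        have := (Finset.mem_filter.1 hi).2
        have := i.2
        simp
        omega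
      · intro i hi j hj hij
        have h5 := (Finset.mem_filter.1 hi).2
        have h6 := (Finset.mem_filter.1 hj).2
        simp only at hij
        exact Fin.ext (by omega)
    simpa using this
  obtain ⟨h5, h6⟩ := bul_unique hp hq h h3 h4 h1
  have h7 := Finset.card_filter_add_card_filter_not (s := T) (fun i : Fin (s + t) => (i : ℕ) < s)
  omega

/-- Few indices suffice. -/
theorem few {r : ℕ} (b : Fin r → ℕ) (s : ℕ) (h : s ≤ ∑ i, b i) :
    ∃ T : Finset (Fin r), T.card ≤ s ∧ s ≤ ∑ i ∈ T, b i := by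
  classical
  induction s with
  | zero => exact ⟨∅, by simp, by simp⟩
  | succ s ih =>
    obtain ⟨T, hT, h1⟩ := ih (by omega)
    by_cases h2 : s + 1 ≤ ∑ i ∈ T, b i
    · exact ⟨T, by omega, h2⟩
    · have h3 : ∑ i ∈ T, b i < ∑ i, b i := by omega
      obtain ⟨j, hj, hbj⟩ : ∃ j, j ∉ T ∧ 0 < b j := by
        by_contra hc
        push Not at hc
        have : ∑ i ∈ T, b i = ∑ i, b i := by
          apply Finset.sum_subset (Finset.subset_univ T)
          intro j _ hj
          have := hc j hj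
          omega
        omega
      refine ⟨insert j T, ?_, ?_⟩
      · rw [Finset.card_insert_of_notMem hj]
        omega
      · rw [Finset.sum_insert hj]
        omega

/-- Upper bound. -/
theorem upper (hΓ : ∀ z ∈ Γ, ∃ α β γ : ℕ, z = α * x + β * p + γ * q) (hx : x ∈ Γ) (hp : p ∈ Γ)
    (hq : q ∈ Γ) {B : ℕ} (hB : 1 ≤ B) (h : ∀ s t, Bul Γ x p q s t → s + t ≤ B) : Bd Γ x B := by
  classical
  intro r a ha hle
  choose α β γ hz using fun i => hΓ (a i) (ha i)
  by_cases h1 : ∃ i, α i ≠ 0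
  · obtain ⟨i, hi⟩ := h1
    obtain ⟨u, hu⟩ := Nat.exists_eq_succ_of_ne_zero hi
    refine ⟨{i}, by simpa using hB, ?_⟩
    rw [Finset.sum_singleton, hz i, hu]
    refine ⟨u * x + β i * p + γ i * q, ?_, by rw [Nat.succ_mul]; ring⟩
    exact add_mem (add_mem (by simpa using nsmul_mem hx u) (by simpa using nsmul_mem hp (β i)))
      (by simpa using nsmul_mem hq (γ i))
  · push Not at h1
    have hz' : ∀ i, a i = β i * p + γ i * q := fun i => by rw [hz i, h1 i]; ring
    have hsum : ∀ T : Finset (Fin r), ∑ i ∈ T, a i = (∑ i ∈ T, β i) * p + (∑ i ∈ T, γ i) * q := by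
      intro T
      rw [Finset.sum_mul, Finset.sum_mul, ← Finset.sum_add_distrib]
      exact Finset.sum_congr rfl fun i _ => hz' i
    rw [hsum] at hle
    obtain ⟨s, t, hs, ht, hb⟩ := exists_bul _ _ hle
    obtain ⟨T₁, h2, h3⟩ := few β s hs
    obtain ⟨T₂, h4, h5⟩ := few γ t ht
    refine ⟨T₁ ∪ T₂, ?_, ?_⟩
    · have := Finset.card_union_le T₁ T₂
      have := h s t hb
      omega
    · rw [hsum]
      refine hb.1.mono hp hq (h3.trans ?_) (h5.trans ?_)
      · exact Finset.sum_le_sum_of_subset Finset.subset_union_left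
      · exact Finset.sum_le_sum_of_subset Finset.subset_union_right

end General

section Main

variable {n₁ n₂ n₃ : ℕ}

/-- The least `s` with `z ≼ s y`, for `z, y ∈ Γ` positive. -/
theorem exists_least (Γ : AddSubmonoid ℕ) (z y : ℕ) (hz : z ∈ Γ) (hz0 : 0 < z) (hy0 : 0 < y) :
    ∃ s, 1 ≤ s ∧ Le Γ z (s * y) ∧ ∀ s', Le Γ z (s' * y) → s ≤ s' := by
  classical
  have hex : ∃ s, Le Γ z (s * y) := by
    refine ⟨z, (y - 1) * z, by simpa using nsmul_mem hz (y - 1), ?_⟩
    obtain ⟨u, rfl⟩ := Nat.exists_eq_succ_of_ne_zero hy0.ne'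
    simp only [Nat.succ_eq_add_one, Nat.add_sub_cancel]
    ring
  refine ⟨Nat.find hex, ?_, Nat.find_spec hex, fun s' hs' => Nat.find_min' hex hs'⟩
  by_contra h
  have h0 : Nat.find hex = 0 := by omega
  have h1 := Nat.find_spec hex
  rw [h0, zero_mul] at h1
  obtain ⟨g, _, hg⟩ := h1
  omega

theorem le_iff {z y : ℕ} : Le (Gm n₁ n₂ n₃) z y ↔
    ∃ i j k : ℕ, y = z + (i * n₁ + j * n₂ + k * n₃) := by
  constructor
  · rintro ⟨g, hg, rfl⟩
    obtain ⟨i, j, k, rfl⟩ := mem_Gm.1 hg
    exact ⟨i, j, k, rfl⟩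
  · rintro ⟨i, j, k, h⟩
    exact ⟨_, mem_Gm.2 ⟨i, j, k, rfl⟩, h⟩

set_option maxHeartbeats 4000000 in
/-- The main argument. -/
theorem main (h1 : 0 < n₁) (h12 : n₁ < n₂) (h23 : n₂ < n₃) (B : ℕ)
    (hB : ∀ s t, Bul (Gm n₁ n₂ n₃) n₃ n₁ n₂ s t → s + t ≤ B) :
    (∀ s t, Bul (Gm n₁ n₂ n₃) n₁ n₂ n₃ s t → s + t ≤ B) ∨
      (∀ s t, Bul (Gm n₁ n₂ n₃) n₂ n₁ n₃ s t → s + t ≤ B) := by
  set Γ := Gm n₁ n₂ n₃ with hΓ
  have m1 : n₁ ∈ Γ := mem_Gm.2 ⟨1, 0, 0, by ring⟩
  have m2 : n₂ ∈ Γ := mem_Gm.2 ⟨0, 1, 0, by ring⟩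
  have m3 : n₃ ∈ Γ := mem_Gm.2 ⟨0, 0, 1, by ring⟩
  obtain ⟨s₀, hs0, hs1, hs2⟩ := exists_least Γ n₃ n₁ m3 (by omega) h1
  obtain ⟨t₀, ht0, ht1, ht2⟩ := exists_least Γ n₃ n₂ m3 (by omega) (by omega)
  obtain ⟨x₀, hx0, hx1, hx2⟩ := exists_least Γ n₁ n₂ m1 h1 (by omega)
  have hs0B : s₀ ≤ B := by
    refine le_trans (Nat.le_add_right s₀ 0) (hB s₀ 0 ⟨by simpa using hs1, ?_, ?_⟩)
    · intro s' hs' h
      have := hs2 s' (by simpa using h)
      omega
    · intro t' ht'
      omega
  have ht0B : t₀ ≤ B := by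
    refine le_trans (Nat.le_add_left t₀ 0) (hB 0 t₀ ⟨by simpa using ht1, ?_, ?_⟩)
    · intro s' hs'
      omega
    · intro t' ht' h
      have := ht2 t' (by simpa using h)
      omega
  by_cases hcase : x₀ ≤ t₀
  · -- Case I
    left
    intro x y hb
    rcases Nat.eq_zero_or_pos y with rfl | hy
    · -- `(x, 0)`
      have hx : x = x₀ := by
        have h2 := hx2 x (by simpa using hb.1)
        exact ((bul_unique m2 m3 hb h2 le_rfl (by simpa using hx1)).1).symm
      omega
    rcases Nat.eq_zero_or_pos x with rfl | hx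
    · -- `(0, y)`
      obtain ⟨i, j, k, he⟩ := le_iff.1 hb.1
      obtain ⟨y', rfl⟩ := Nat.exists_eq_succ_of_ne_zero hy.ne'
      have hno : ¬ Le Γ n₁ (y' * n₃) := by
        have := hb.2.2 y' rfl
        simpa using this
      have hk : k = 0 := by
        by_contra hk
        obtain ⟨k', rfl⟩ := Nat.exists_eq_succ_of_ne_zero hk
        apply hno
        rw [le_iff]
        refine ⟨i, j, k', ?_⟩
        simp only [Nat.succ_eq_add_one] at he
        linarith
      subst hk
      have he' : (y' + 1) * n₃ = (i + 1) * n₁ + j * n₂ := by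
        simp only [Nat.succ_eq_add_one] at he
        linarith
      have hlt : y' + 1 < i + 1 + j := by
        by_contra hc
        push Not at hc
        have e1 : (i + 1 + j) * n₃ ≤ (y' + 1) * n₃ := Nat.mul_le_mul_right _ hc
        have e2 : (i + 1) * n₁ < (i + 1) * n₃ := Nat.mul_lt_mul_of_pos_left (by omega) (by omega)
        have e3 : j * n₂ ≤ j * n₃ := Nat.mul_le_mul_left _ (by omega)
        nlinarith
      have hin : Le Γ n₃ ((i + 1) * n₁ + j * n₂) := by
        rw [← he', le_iff]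
        exact ⟨0, 0, y', by ring⟩
      obtain ⟨i', j', hi', hj', hb'⟩ := exists_bul _ _ hin
      obtain ⟨a, b, c, hc⟩ := le_iff.1 hb'.1
      obtain ⟨di, hdi⟩ := Nat.exists_eq_add_of_le hi'
      obtain ⟨dj, hdj⟩ := Nat.exists_eq_add_of_le hj'
      have hrel : y' * n₃ = (a + di) * n₁ + (b + dj) * n₂ + c * n₃ := by
        have e1 : (i' + di) * n₁ + (j' + dj) * n₂ = (y' + 1) * n₃ := by rw [← hdi, ← hdj, he']
        nlinarith
      have hdi0 : a + di = 0 := by
        by_contra hne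
        obtain ⟨e, he2⟩ := Nat.exists_eq_succ_of_ne_zero hne
        apply hno
        rw [le_iff]
        refine ⟨e, b + dj, c, ?_⟩
        rw [hrel, he2, Nat.succ_eq_add_one]
        ring
      by_cases hdj0 : b + dj = 0
      · have := hB i' j' hb'
        simp only [Nat.succ_eq_add_one]
        omega
      · exfalso
        have hcy : c ≤ y' := by
          by_contra hc2
          push Not at hc2
          have e1 : y' * n₃ < c * n₃ := Nat.mul_lt_mul_of_pos_right hc2 (by omega)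
          rw [hrel] at e1
          omega
        obtain ⟨f, rfl⟩ := Nat.exists_eq_add_of_le hcy
        have hf : f * n₃ = (b + dj) * n₂ := by
          rw [hdi0] at hrel
          nlinarith
        have hf0 : f ≠ 0 := by
          rintro rfl
          have : 0 < (b + dj) * n₂ := Nat.mul_pos (by omega) (by omega)
          omega
        obtain ⟨f', rfl⟩ := Nat.exists_eq_succ_of_ne_zero hf0
        have h2 : Le Γ n₃ ((b + dj) * n₂) := by
          rw [← hf, le_iff]
          exact ⟨0, 0, f', by rw [Nat.succ_eq_add_one]; ring⟩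
        have h3 := ht2 _ h2
        have h4 : Le Γ n₁ ((b + dj) * n₂) := by
          have := Le.mono (x := n₁) m2 m3 (s := x₀) (t := 0) (s' := b + dj) (t' := 0)
            (by simpa using hx1) (by omega) le_rfl
          simpa using this
        apply hno
        have h5 : (c + (f'.succ)) * n₃ = (b + dj) * n₂ + c * n₃ := by
          rw [← hf]; ring
        rw [h5]
        exact h4.add (by simpa using nsmul_mem m3 c)
    · -- mixed
      obtain ⟨i, j, k, he⟩ := le_iff.1 hb.1
      obtain ⟨x', rfl⟩ := Nat.exists_eq_succ_of_ne_zero hx.ne'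
      obtain ⟨y', rfl⟩ := Nat.exists_eq_succ_of_ne_zero hy.ne'
      have hj : j = 0 := by
        by_contra hj
        obtain ⟨j', rfl⟩ := Nat.exists_eq_succ_of_ne_zero hj
        apply hb.2.1 x' rfl
        rw [le_iff]
        refine ⟨i, j', k, ?_⟩
        simp only [Nat.succ_eq_add_one] at he ⊢
        linarith
      have hk : k = 0 := by
        by_contra hk
        obtain ⟨k', rfl⟩ := Nat.exists_eq_succ_of_ne_zero hk
        apply hb.2.2 y' rfl
        rw [le_iff]
        refine ⟨i, j, k', ?_⟩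
        simp only [Nat.succ_eq_add_one] at he ⊢
        linarith
      subst hj hk
      simp only [Nat.succ_eq_add_one] at he hb ⊢
      have hlt : (x' + 1) + (y' + 1) < i + 1 := by
        by_contra hc
        push Not at hc
        have e1 : (i + 1) * n₁ ≤ ((x' + 1) + (y' + 1)) * n₁ := Nat.mul_le_mul_right _ hc
        have e2 : (x' + 1) * n₁ < (x' + 1) * n₂ := Nat.mul_lt_mul_of_pos_left h12 (by omega)
        have e3 : (y' + 1) * n₁ ≤ (y' + 1) * n₃ := Nat.mul_le_mul_left _ (by omega)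
        nlinarith
      have hsc : i + 1 ≤ s₀ := by
        by_contra hc
        push Not at hc
        obtain ⟨a, b, c, habc⟩ := le_iff.1 hs1
        obtain ⟨s', rfl⟩ := Nat.exists_eq_succ_of_ne_zero (show s₀ ≠ 0 by omega)
        have ha : a = 0 := by
          by_contra ha
          obtain ⟨a', rfl⟩ := Nat.exists_eq_succ_of_ne_zero ha
          have := hs2 s' (by
            rw [le_iff]
            refine ⟨a', b, c, ?_⟩
            simp only [Nat.succ_eq_add_one] at habc
            linarith)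
          omega
        subst ha
        simp only [Nat.succ_eq_add_one] at habc hc
        -- `(s' + 1) n₁ = b n₂ + (c + 1) n₃`
        obtain ⟨d, hd⟩ := Nat.exists_eq_add_of_lt hc
        have hkey : (d + 1) * n₁ + b * n₂ + (c + 1) * n₃ = (x' + 1) * n₂ + (y' + 1) * n₃ := by
          have e1 : (i + 1) * n₁ = (s' + 1) * n₁ + (d + 1) * n₁ := by
            rw [show i + 1 = s' + 1 + (d + 1) by omega]; ring
          nlinarith
        by_cases hb1 : b ≤ x' + 1
        · by_cases hc1 : c + 1 ≤ y' + 1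
          · have hle : Le Γ n₁ (b * n₂ + (c + 1) * n₃) := by
              rw [le_iff]
              exact ⟨s', 0, 0, by linarith⟩
            obtain ⟨e1, e2⟩ := bul_unique m2 m3 hb hb1 hc1 hle
            rw [e1, e2] at hkey
            have : 0 < (d + 1) * n₁ := Nat.mul_pos (by omega) h1
            omega
          · push Not at hc1
            obtain ⟨e, he2⟩ := Nat.exists_eq_add_of_lt hc1
            obtain ⟨f, hf⟩ := Nat.exists_eq_add_of_le hb1
            have hle : Le Γ n₁ (f * n₂ + 0 * n₃) := by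
              rw [le_iff]
              refine ⟨d, 0, e + 1, ?_⟩
              rw [hf, he2] at hkey
              nlinarith
            have := (bul_unique m2 m3 hb (show f ≤ x' + 1 by omega) (Nat.zero_le _) hle).2
            omega
        · push Not at hb1
          obtain ⟨e, he2⟩ := Nat.exists_eq_add_of_lt hb1
          have hc1 : c + 1 ≤ y' + 1 := by
            by_contra hc2
            push Not at hc2
            have e1 : (y' + 1) * n₃ ≤ (c + 1) * n₃ := Nat.mul_le_mul_right _ hc2.le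
            have e3 : (x' + 1) * n₂ ≤ b * n₂ := Nat.mul_le_mul_right _ hb1.le
            have : 0 < (d + 1) * n₁ := Nat.mul_pos (by omega) h1
            omega
          obtain ⟨f, hf⟩ := Nat.exists_eq_add_of_le hc1
          have hle : Le Γ n₁ (0 * n₂ + f * n₃) := by
            rw [le_iff]
            refine ⟨d, e + 1, 0, ?_⟩
            rw [hf, he2] at hkey
            nlinarith
          have := (bul_unique m2 m3 hb (Nat.zero_le _) (show f ≤ y' + 1 by omega) hle).1
          omega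
      omega
  · -- Case II
    right
    push Not at hcase
    have hno : ¬ Le Γ n₁ (t₀ * n₂) := fun h => by
      have := hx2 _ h
      omega
    obtain ⟨i, j, k, he⟩ := le_iff.1 ht1
    have hi : i = 0 := by
      by_contra hi
      obtain ⟨i', rfl⟩ := Nat.exists_eq_succ_of_ne_zero hi
      apply hno
      rw [le_iff]
      refine ⟨i', j, k + 1, ?_⟩
      simp only [Nat.succ_eq_add_one] at he
      linarith
    have hj : j = 0 := by
      by_contra hj
      obtain ⟨j', rfl⟩ := Nat.exists_eq_succ_of_ne_zero hj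
      obtain ⟨t', rfl⟩ := Nat.exists_eq_succ_of_ne_zero (show t₀ ≠ 0 by omega)
      have := ht2 t' (by
        rw [le_iff]
        refine ⟨i, j', k, ?_⟩
        simp only [Nat.succ_eq_add_one] at he
        linarith)
      omega
    subst hi hj
    set m := k + 1 with hm
    have hmn : t₀ * n₂ = m * n₃ := by rw [he, hm]; ring
    have hmt : m < t₀ := by
      by_contra hc
      push Not at hc
      have e1 : t₀ * n₃ ≤ m * n₃ := Nat.mul_le_mul_right _ hc
      have e2 : t₀ * n₂ < t₀ * n₃ := Nat.mul_lt_mul_of_pos_left h23 (by omega)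
      omega
    have hmle : Le Γ n₂ (0 * n₁ + m * n₃) := by
      rw [zero_mul, zero_add, ← hmn, le_iff]
      obtain ⟨t', rfl⟩ := Nat.exists_eq_succ_of_ne_zero (show t₀ ≠ 0 by omega)
      exact ⟨0, t', 0, by rw [Nat.succ_eq_add_one]; ring⟩
    intro u v hb
    have hvm : v ≤ m := by
      by_contra hc
      push Not at hc
      have := (bul_unique m1 m3 hb (Nat.zero_le u) hc.le hmle).2
      omega
    rcases Nat.eq_zero_or_pos u with rfl | hu
    · omega
    have hvm' : v < m := by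
      rcases lt_or_eq_of_le hvm with h | h
      · exact h
      · have := (bul_unique m1 m3 hb (Nat.zero_le u) h.symm.le hmle).1
        omega
    obtain ⟨a, b, c, habc⟩ := le_iff.1 hb.1
    obtain ⟨u', rfl⟩ := Nat.exists_eq_succ_of_ne_zero hu.ne'
    simp only [Nat.succ_eq_add_one] at habc hb hu ⊢
    have ha : a = 0 := by
      by_contra ha
      obtain ⟨a', rfl⟩ := Nat.exists_eq_succ_of_ne_zero ha
      apply hb.2.1 u' rfl
      rw [le_iff]
      refine ⟨a', b, c, ?_⟩
      simp only [Nat.succ_eq_add_one] at habc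
      linarith
    subst ha
    rcases Nat.eq_zero_or_pos v with rfl | hv
    · -- `(u, 0)`
      have hle : u' + 1 ≤ s₀ := by
        by_contra hc
        push Not at hc
        have hn2 : ¬ Le Γ n₂ (s₀ * n₁) := by
          intro h
          have := (bul_unique m1 m3 hb hc.le le_rfl (by simpa using h)).1
          omega
        obtain ⟨a, b', c', h3⟩ := le_iff.1 hs1
        have ha : a = 0 := by
          by_contra ha
          obtain ⟨a', rfl⟩ := Nat.exists_eq_succ_of_ne_zero ha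
          obtain ⟨s', rfl⟩ := Nat.exists_eq_succ_of_ne_zero (show s₀ ≠ 0 by omega)
          have := hs2 s' (by
            rw [le_iff]
            refine ⟨a', b', c', ?_⟩
            simp only [Nat.succ_eq_add_one] at h3
            linarith)
          omega
        have hb' : b' = 0 := by
          by_contra hb'
          obtain ⟨b'', rfl⟩ := Nat.exists_eq_succ_of_ne_zero hb'
          apply hn2
          rw [le_iff]
          refine ⟨a, b'', c' + 1, ?_⟩
          simp only [Nat.succ_eq_add_one] at h3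
          linarith
        subst ha hb'
        have h4 : s₀ * n₁ = (c' + 1) * n₃ := by rw [h3]; ring
        by_cases h5 : m ≤ c' + 1
        · obtain ⟨e, he2⟩ := Nat.exists_eq_add_of_le h5
          apply hn2
          rw [le_iff]
          obtain ⟨t', rfl⟩ := Nat.exists_eq_succ_of_ne_zero (show t₀ ≠ 0 by omega)
          refine ⟨0, t', e, ?_⟩
          rw [h4, he2]
          simp only [Nat.succ_eq_add_one] at hmn
          nlinarith
        · push Not at h5
          obtain ⟨e, he2⟩ := Nat.exists_eq_add_of_lt h5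
          apply hno
          rw [le_iff]
          obtain ⟨s', rfl⟩ := Nat.exists_eq_succ_of_ne_zero (show s₀ ≠ 0 by omega)
          refine ⟨s', 0, e + 1, ?_⟩
          rw [hmn, he2]
          simp only [Nat.succ_eq_add_one] at h4
          nlinarith
      omega
    · -- mixed: impossible
      exfalso
      obtain ⟨v', rfl⟩ := Nat.exists_eq_succ_of_ne_zero hv.ne'
      simp only [Nat.succ_eq_add_one] at habc hb hvm'
      have hc0 : c = 0 := by
        by_contra hc
        obtain ⟨c', rfl⟩ := Nat.exists_eq_succ_of_ne_zero hc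
        apply hb.2.2 v' rfl
        rw [le_iff]
        refine ⟨0, b, c', ?_⟩
        simp only [Nat.succ_eq_add_one] at habc
        linarith
      subst hc0
      have h3 : (u' + 1) * n₁ + (v' + 1) * n₃ = (b + 1) * n₂ := by rw [habc]; ring
      have h4 : x₀ ≤ b + 1 := hx2 _ (by
        rw [← h3, le_iff]
        exact ⟨u', 0, v' + 1, by ring⟩)
      obtain ⟨e, he2⟩ := Nat.exists_eq_add_of_lt (show t₀ < b + 1 by omega)
      obtain ⟨f, hf⟩ := Nat.exists_eq_add_of_lt hvm'
      have hle : Le Γ n₂ ((u' + 1) * n₁ + 0 * n₃) := by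
        rw [le_iff]
        refine ⟨0, e, f + 1, ?_⟩
        rw [hf] at hmn
        rw [he2] at h3
        nlinarith
      have := (bul_unique m1 m3 hb le_rfl (Nat.zero_le _) hle).2
      omega

/-- There is a bound for every positive element of the monoid, and the omega value is the least. -/
theorem omega_spec (h1 : 0 < n₁) (h12 : n₁ < n₂) (h23 : n₂ < n₃) :
    1 ≤ omega (Gm n₁ n₂ n₃) n₃ ∧ Bd (Gm n₁ n₂ n₃) n₃ (omega (Gm n₁ n₂ n₃) n₃) := by
  have m1 : n₁ ∈ Gm n₁ n₂ n₃ := mem_Gm.2 ⟨1, 0, 0, by ring⟩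
  have m2 : n₂ ∈ Gm n₁ n₂ n₃ := mem_Gm.2 ⟨0, 1, 0, by ring⟩
  have m3 : n₃ ∈ Gm n₁ n₂ n₃ := mem_Gm.2 ⟨0, 0, 1, by ring⟩
  have hne : {N : ℕ | 1 ≤ N ∧ Bd (Gm n₁ n₂ n₃) n₃ N}.Nonempty := by
    refine ⟨n₃ + n₃, by omega, upper (p := n₁) (q := n₂) (fun z hz => ?_) m3 m1 m2 (by omega) ?_⟩
    · obtain ⟨i, j, k, rfl⟩ := mem_Gm.1 hz
      exact ⟨k, i, j, by ring⟩
    · intro s t hb
      have hs : s ≤ n₃ := by
        by_contra hc
        push Not at hc
        have hle : Le (Gm n₁ n₂ n₃) n₃ (n₃ * n₁ + 0 * n₂) := by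
          obtain ⟨a, rfl⟩ := Nat.exists_eq_succ_of_ne_zero h1.ne'
          rw [le_iff]
          exact ⟨0, 0, a, by rw [Nat.succ_eq_add_one]; ring⟩
        have := (bul_unique m1 m2 hb hc.le (Nat.zero_le _) hle).1
        omega
      have ht : t ≤ n₃ := by
        by_contra hc
        push Not at hc
        have hle : Le (Gm n₁ n₂ n₃) n₃ (0 * n₁ + n₃ * n₂) := by
          obtain ⟨a, ha⟩ := Nat.exists_eq_succ_of_ne_zero (show n₂ ≠ 0 by omega)
          rw [le_iff]
          refine ⟨0, 0, a, ?_⟩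
          rw [Nat.succ_eq_add_one] at ha
          have : n₃ * n₂ = n₃ + a * n₃ := by rw [ha]; ring
          linarith
        have := (bul_unique m1 m2 hb (Nat.zero_le _) hc.le hle).2
        omega
      omega
  exact Nat.sInf_mem hne

theorem le_or_le (h1 : 0 < n₁) (h12 : n₁ < n₂) (h23 : n₂ < n₃) :
    omega (Gm n₁ n₂ n₃) n₁ ≤ omega (Gm n₁ n₂ n₃) n₃ ∨
      omega (Gm n₁ n₂ n₃) n₂ ≤ omega (Gm n₁ n₂ n₃) n₃ := by
  have m1 : n₁ ∈ Gm n₁ n₂ n₃ := mem_Gm.2 ⟨1, 0, 0, by ring⟩
  have m2 : n₂ ∈ Gm n₁ n₂ n₃ := mem_Gm.2 ⟨0, 1, 0, by ring⟩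
  have m3 : n₃ ∈ Gm n₁ n₂ n₃ := mem_Gm.2 ⟨0, 0, 1, by ring⟩
  obtain ⟨hB1, hB2⟩ := omega_spec h1 h12 h23
  rcases main h1 h12 h23 _ (fun s t hb => lower m1 m2 hb hB2) with h | h
  · left
    refine Nat.sInf_le ⟨hB1, upper (p := n₂) (q := n₃) (fun z hz => ?_) m1 m2 m3 hB1 h⟩
    obtain ⟨i, j, k, rfl⟩ := mem_Gm.1 hz
    exact ⟨i, j, k, by ring⟩
  · right
    refine Nat.sInf_le ⟨hB1, upper (p := n₁) (q := n₃) (fun z hz => ?_) m2 m1 m3 hB1 h⟩
    obtain ⟨i, j, k, rfl⟩ := mem_Gm.1 hz
    exact ⟨j, i, k, by ring⟩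

end Main

/-- For `Γ = ⟨n₁, n₂, n₃⟩` with `0 < n₁ < n₂ < n₃` (in particular for every numerical monoid minimally
generated by `n₁ < n₂ < n₃`) one has `min (ω(n₁), ω(n₂)) ≤ ω(n₃)`; hence none of the orderings
(a) `ω(n₁) > ω(n₂) > ω(n₃)`, (b) `ω(n₁) = ω(n₂) > ω(n₃)`, (c) `ω(n₃) < ω(n₁) < ω(n₂)` occurs. -/
theorem result (n₁ n₂ n₃ : ℕ) (h1 : 0 < n₁) (h12 : n₁ < n₂) (h23 : n₂ < n₃) :
    let ω := omega (AddSubmonoid.closure {n₁, n₂, n₃})
    min (ω n₁) (ω n₂) ≤ ω n₃ ∧
      ¬ (ω n₁ > ω n₂ ∧ ω n₂ > ω n₃) ∧ ¬ (ω n₁ = ω n₂ ∧ ω n₂ > ω n₃) ∧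
      ¬ (ω n₃ < ω n₁ ∧ ω n₁ < ω n₂) := by
  intro ω
  have h : ω n₁ ≤ ω n₃ ∨ ω n₂ ≤ ω n₃ := le_or_le h1 h12 h23
  refine ⟨?_, ?_, ?_, ?_⟩
  · rcases h with h | h
    · exact (min_le_left _ _).trans h
    · exact (min_le_right _ _).trans h
  · rintro ⟨h2, h3⟩
    omega
  · rintro ⟨h2, h3⟩
    omega
  · rintro ⟨h2, h3⟩
    omega

end Pool.Agent.Results.MP_1fb722_al.NoOrderings
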